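import Pool.Agent.Y110.FJ.Stm4
import Pool.Agent.Y261.FJ.GPI
import Pool.Agent.Y50.FJ.Gp

/-!
# Job FJ-RGP (for helper110): graph products extended by a group which preserves the vertex groups
-/

set_option autoImplicit false

namespace Pool.Agent.Y978.FJ

open Pool.Agent.Y110.FJ Pool.Agent.Y261.FJ

section ret

variable {V : Type} (Λ : SimpleGraph V) (A : V → Type) [∀ v, Group (A v)]

open Classical in
/-- the retraction onto the subgroup of the vertices in `S` -/
noncomputable def ret (S : Set V) : GrP Λ A →* GrP Λ A :=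
  glift (fun v => if v ∈ S then GrP.of Λ A v else 1) (by
    intro v w h a b
    by_cases hv : v ∈ S
    · by_cases hw : w ∈ S
      · rw [if_pos hv, if_pos hw]
        exact of_comm Λ A h a b
      · rw [if_neg hw]
        simp
    · rw [if_neg hv]
      simp)

theorem ret_of_mem {S : Set V} {v : V} (hv : v ∈ S) (a : A v) :
    ret Λ A S (GrP.of Λ A v a) = GrP.of Λ A v a := by
  unfold ret
  rw [glift_of, if_pos hv]

theorem ret_of_not {S : Set V} {v : V} (hv : v ∉ S) (a : A v) :
    ret Λ A S (GrP.of Λ A v a) = 1 := by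
  unfold ret
  rw [glift_of, if_neg hv]
  rfl

theorem ret_ret (S T : Set V) (x : GrP Λ A) : ret Λ A S (ret Λ A T x) = ret Λ A (S ∩ T) x := by
  have h : (ret Λ A S).comp (ret Λ A T) = ret Λ A (S ∩ T) := by
    apply ghom_ext
    intro v a
    rw [MonoidHom.comp_apply]
    by_cases hT : v ∈ T
    · rw [ret_of_mem Λ A hT]
      by_cases hS : v ∈ S
      · rw [ret_of_mem Λ A hS, ret_of_mem Λ A (⟨hS, hT⟩ : v ∈ S ∩ T)]
      · rw [ret_of_not Λ A hS, ret_of_not Λ A (fun h : v ∈ S ∩ T => hS h.1)]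
    · rw [ret_of_not Λ A hT, map_one, ret_of_not Λ A (fun h : v ∈ S ∩ T => hT h.2)]
  exact DFunLike.congr_fun h x

theorem ret_gc {S : Set V} {x : GrP Λ A} (hx : x ∈ gc Λ A S) : ret Λ A S x = x := by
  have h : gc Λ A S ≤ (ret Λ A S).eqLocus (MonoidHom.id _) := by
    unfold gc
    rw [Subgroup.closure_le]
    rintro _ ⟨v, hv, a, rfl⟩
    exact ret_of_mem Λ A hv a
  exact h hx

open Classical in
theorem toPi_comm (v w : V) (h : Λ.Adj v w) (a : A v) (b : A w) :
    (MonoidHom.mulSingle A v) a * (MonoidHom.mulSingle A w) b =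
      (MonoidHom.mulSingle A w) b * (MonoidHom.mulSingle A v) a :=
  Pi.mulSingle_commute (Λ.ne_of_adj h) a b

open Classical in
/-- the projections to the vertex groups -/
noncomputable def toPi : GrP Λ A →* (∀ v, A v) :=
  glift (fun v => MonoidHom.mulSingle A v) (toPi_comm Λ A)

open Classical in
theorem toPi_of (v : V) (a : A v) : toPi Λ A (GrP.of Λ A v a) = Pi.mulSingle v a :=
  glift_of (Λ := Λ) (A := A) (fun v => MonoidHom.mulSingle A v) (toPi_comm Λ A) v a

/-- the projection to a vertex group -/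
noncomputable def pr (v : V) : GrP Λ A →* A v := (Pi.evalMonoidHom A v).comp (toPi Λ A)

theorem pr_of_self (v : V) (a : A v) : pr Λ A v (GrP.of Λ A v a) = a := by
  classical
  show toPi Λ A (GrP.of Λ A v a) v = a
  rw [toPi_of]
  exact Pi.mulSingle_eq_same v a

theorem pr_of_ne {v w : V} (h : w ≠ v) (a : A w) : pr Λ A v (GrP.of Λ A w a) = 1 := by
  classical
  show toPi Λ A (GrP.of Λ A w a) v = 1
  rw [toPi_of]
  exact Pi.mulSingle_eq_of_ne h.symm a

/-- cliques -/
theorem clique_inj (S : Finset V) (hS : Λ.IsClique (S : Set V)) {x y : GrP Λ A}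
    (hx : ret Λ A (S : Set V) x = x) (hy : ret Λ A (S : Set V) y = y)
    (h : ∀ v ∈ S, pr Λ A v x = pr Λ A v y) : x = y := by
  classical
  let c : (∀ v : S, A v) →* GrP Λ A := MonoidHom.noncommPiCoprod
    (fun v : S => GrP.of Λ A (v : V)) (fun v w hvw a b =>
      of_comm Λ A (hS v.2 w.2 (fun h => hvw (Subtype.ext h))) a b)
  have hc : (c.comp (MonoidHom.pi fun v : S => pr Λ A (v : V))).comp (ret Λ A (S : Set V)) =
      ret Λ A (S : Set V) := by
    apply ghom_ext
    intro w a
    rw [MonoidHom.comp_apply]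
    by_cases hw : w ∈ (S : Set V)
    · rw [ret_of_mem Λ A hw]
      have e : (MonoidHom.pi fun v : S => pr Λ A (v : V)) (GrP.of Λ A w a) =
          Pi.mulSingle (⟨w, hw⟩ : S) a := by
        funext v
        by_cases hv : v = (⟨w, hw⟩ : S)
        · subst hv
          rw [Pi.mulSingle_eq_same]
          exact pr_of_self Λ A w a
        · rw [Pi.mulSingle_eq_of_ne hv]
          exact pr_of_ne Λ A (fun h => hv (Subtype.ext h.symm)) a
      rw [MonoidHom.comp_apply, e]
      exact MonoidHom.noncommPiCoprod_mulSingle _ _ _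
    · rw [ret_of_not Λ A hw, map_one]
  have h1 : ∀ z, ret Λ A (S : Set V) z = z → c (fun v : S => pr Λ A (v : V) z) = z := by
    intro z hz
    have h2 := DFunLike.congr_fun hc z
    rw [MonoidHom.comp_apply, hz] at h2
    exact h2
  rw [← h1 x hx, ← h1 y hy]
  congr 1
  funext v
  exact h v v.2

end ret

section semi

variable {V Q : Type} {Λ : SimpleGraph V} {A : V → Type} [∀ v, Group (A v)] [Group Q]
  {α : Q →* MulAut (GrP Λ A)} {θ : ∀ v, Q →* MulAut (A v)}

/-- the action preserves every vertex group -/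
def Pres (α : Q →* MulAut (GrP Λ A)) (θ : ∀ v, Q →* MulAut (A v)) : Prop :=
  ∀ q v a, α q (GrP.of Λ A v a) = GrP.of Λ A v (θ v q a)

theorem ret_act (hα : Pres α θ) (S : Set V) (q : Q) :
    (ret Λ A S).comp (α q).toMonoidHom = (α q).toMonoidHom.comp (ret Λ A S) := by
  apply ghom_ext
  intro v a
  show ret Λ A S (α q (GrP.of Λ A v a)) = α q (ret Λ A S (GrP.of Λ A v a))
  rw [hα]
  by_cases hv : v ∈ S
  · rw [ret_of_mem Λ A hv, ret_of_mem Λ A hv, hα]
  · rw [ret_of_not Λ A hv, ret_of_not Λ A hv, map_one]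

theorem pr_act (hα : Pres α θ) (v : V) (q : Q) :
    (pr Λ A v).comp (α q).toMonoidHom = (θ v q).toMonoidHom.comp (pr Λ A v) := by
  apply ghom_ext
  intro w a
  show pr Λ A v (α q (GrP.of Λ A w a)) = θ v q (pr Λ A v (GrP.of Λ A w a))
  rw [hα]
  by_cases hv : w = v
  · subst hv
    rw [pr_of_self, pr_of_self]
  · rw [pr_of_ne Λ A hv, pr_of_ne Λ A hv, map_one]

/-- the retraction of the semidirect product -/
noncomputable def Ret (hα : Pres α θ) (S : Set V) : GrP Λ A ⋊[α] Q →* GrP Λ A ⋊[α] Q :=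
  SemidirectProduct.map (ret Λ A S) (MonoidHom.id Q) (fun q => ret_act hα S q)

theorem Ret_inl (hα : Pres α θ) (S : Set V) (n : GrP Λ A) :
    Ret hα S (SemidirectProduct.inl n) = SemidirectProduct.inl (ret Λ A S n) :=
  SemidirectProduct.map_inl _ _ _ n

theorem Ret_inr (hα : Pres α θ) (S : Set V) (q : Q) :
    Ret hα S (SemidirectProduct.inr q) = SemidirectProduct.inr q :=
  SemidirectProduct.map_inr _ _ _ q

theorem Ret_Ret (hα : Pres α θ) (S T : Set V) (x : GrP Λ A ⋊[α] Q) :
    Ret hα S (Ret hα T x) = Ret hα (S ∩ T) x :=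
  SemidirectProduct.ext (ret_ret Λ A S T x.left) rfl

/-- the subgroup of `S` -/
noncomputable def W (hα : Pres α θ) (S : Set V) : Subgroup (GrP Λ A ⋊[α] Q) := (Ret hα S).range

theorem Ret_fix (hα : Pres α θ) {S : Set V} {x : GrP Λ A ⋊[α] Q} (hx : x ∈ W hα S) :
    Ret hα S x = x := by
  obtain ⟨y, rfl⟩ := hx
  rw [Ret_Ret, Set.inter_self]

theorem Ret_mem (hα : Pres α θ) {S T : Set V} (h : S ⊆ T) (x : GrP Λ A ⋊[α] Q) :
    Ret hα S x ∈ W hα T := ⟨Ret hα S x, by rw [Ret_Ret, Set.inter_eq_right.2 h]⟩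

theorem W_mono (hα : Pres α θ) {S T : Set V} (h : S ⊆ T) : W hα S ≤ W hα T := by
  rintro _ ⟨y, rfl⟩
  exact Ret_mem hα h y

theorem inl_mem (hα : Pres α θ) {S : Set V} {v : V} (hv : v ∈ S) (a : A v) :
    (SemidirectProduct.inl (GrP.of Λ A v a) : GrP Λ A ⋊[α] Q) ∈ W hα S :=
  ⟨_, by rw [Ret_inl, ret_of_mem Λ A hv]⟩

theorem inr_mem (hα : Pres α θ) (S : Set V) (q : Q) :
    (SemidirectProduct.inr q : GrP Λ A ⋊[α] Q) ∈ W hα S := ⟨_, Ret_inr hα S q⟩

theorem Ret_of_congr (hα : Pres α θ) {S T : Set V} {v : V} (h : v ∈ S ↔ v ∈ T) (a : A v) :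
    Ret hα S (SemidirectProduct.inl (GrP.of Λ A v a)) =
      Ret hα T (SemidirectProduct.inl (GrP.of Λ A v a)) := by
  rw [Ret_inl, Ret_inl]
  by_cases hv : v ∈ S
  · rw [ret_of_mem Λ A hv, ret_of_mem Λ A (h.1 hv)]
  · rw [ret_of_not Λ A hv, ret_of_not Λ A (fun h' => hv (h.2 h'))]

theorem gen_aux (hα : Pres α θ) (S : Set V) {u v : V} (huv : u ≠ v) (x : GrP Λ A ⋊[α] Q) :
    Ret hα S x ∈ W hα (S \ {u}) ⊔ W hα (S \ {v}) := by
  have h1 : gc Λ A Set.univ ≤ (W hα (S \ {u}) ⊔ W hα (S \ {v})).comap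
      ((SemidirectProduct.inl : GrP Λ A →* GrP Λ A ⋊[α] Q).comp (ret Λ A S)) := by
    conv_lhs => unfold gc
    rw [Subgroup.closure_le]
    rintro _ ⟨w, -, a, rfl⟩
    show (SemidirectProduct.inl (ret Λ A S (GrP.of Λ A w a)) : GrP Λ A ⋊[α] Q) ∈
      W hα (S \ {u}) ⊔ W hα (S \ {v})
    by_cases hw : w ∈ S
    · rw [ret_of_mem Λ A hw]
      by_cases hwu : w = u
      · exact Subgroup.mem_sup_right (inl_mem hα (S := S \ {v}) ⟨hw, fun h => huv (hwu.symm.trans h)⟩ a)
      · exact Subgroup.mem_sup_left (inl_mem hα (S := S \ {u}) ⟨hw, hwu⟩ a)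
    · rw [ret_of_not Λ A hw, map_one]
      exact Subgroup.one_mem _
  rw [gc_univ] at h1
  have h2 : Ret hα S x = SemidirectProduct.inl (ret Λ A S x.left) *
      SemidirectProduct.inr x.right := by
    conv_lhs => rw [← SemidirectProduct.inl_left_mul_inr_right x]
    rw [map_mul, Ret_inl, Ret_inr]
  rw [h2]
  exact Subgroup.mul_mem _ (h1 (Subgroup.mem_top x.left))
    (Subgroup.mem_sup_left (inr_mem hα _ x.right))

theorem amg (hα : Pres α θ) (S : Set V) {u v : V} (huv : u ≠ v) (hadj : ¬ Λ.Adj u v) :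
    Amg ((W hα (S \ {u})).subgroupOf (W hα S)) ((W hα (S \ {v})).subgroupOf (W hα S))
      ((W hα (S \ {u, v})).subgroupOf (W hα S)) := by
  classical
  have hsu : S \ {u, v} ⊆ S \ {u} := Set.sdiff_subset_sdiff_right (by simp)
  have hsv : S \ {u, v} ⊆ S \ {v} := Set.sdiff_subset_sdiff_right (by simp)
  have hSu : S \ {u} ⊆ S := Set.sdiff_subset
  have hSv : S \ {v} ⊆ S := Set.sdiff_subset
  refine ⟨?_, ?_, ?_, ?_⟩
  · intro x hx
    rw [Subgroup.mem_subgroupOf] at hx ⊢
    exact W_mono hα hsu hx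
  · intro x hx
    rw [Subgroup.mem_subgroupOf] at hx ⊢
    exact W_mono hα hsv hx
  · rw [← Subgroup.subgroupOf_sup (W_mono hα hSu) (W_mono hα hSv), eq_top_iff]
    rintro ⟨x, hx⟩ -
    rw [Subgroup.mem_subgroupOf]
    have h1 := gen_aux hα S huv x
    rw [Ret_fix hα hx] at h1
    exact h1
  · intro H _ f g hfg
    let ρu : GrP Λ A ⋊[α] Q →* ↥((W hα (S \ {u})).subgroupOf (W hα S)) :=
      ((Ret hα (S \ {u})).codRestrict (W hα S) (fun x => Ret_mem hα hSu x)).codRestrict _
        (fun x => Subgroup.mem_subgroupOf.2 (Ret_mem hα (Set.Subset.refl _) x))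
    let ρv : GrP Λ A ⋊[α] Q →* ↥((W hα (S \ {v})).subgroupOf (W hα S)) :=
      ((Ret hα (S \ {v})).codRestrict (W hα S) (fun x => Ret_mem hα hSv x)).codRestrict _
        (fun x => Subgroup.mem_subgroupOf.2 (Ret_mem hα (Set.Subset.refl _) x))
    obtain ⟨F, hF⟩ : ∃ F : GrP Λ A ⋊[α] Q →* H, F = f.comp ρu := ⟨_, rfl⟩
    obtain ⟨G, hG⟩ : ∃ G : GrP Λ A ⋊[α] Q →* H, G = g.comp ρv := ⟨_, rfl⟩
    have hFG : ∀ y, Ret hα (S \ {u}) y = Ret hα (S \ {v}) y →
        Ret hα (S \ {u}) y ∈ W hα (S \ {u, v}) → F y = G y := by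
      intro y h1 h2
      have h3 := hfg ⟨Ret hα (S \ {u}) y, Ret_mem hα hSu y⟩ (Subgroup.mem_subgroupOf.2 h2)
      rw [hF, hG]
      have e2 : ρv y = ⟨⟨Ret hα (S \ {u}) y, Ret_mem hα hSu y⟩,
          Subgroup.mem_subgroupOf.2 (W_mono hα hsv h2)⟩ := Subtype.ext (Subtype.ext h1.symm)
      show f (ρu y) = g (ρv y)
      rw [e2]
      exact h3
    have hFGof : ∀ (w : V) (a : A w), w ≠ u → w ≠ v →
        F (SemidirectProduct.inl (GrP.of Λ A w a)) =
          G (SemidirectProduct.inl (GrP.of Λ A w a)) := by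
      intro w a hwu hwv
      have e1 : w ∈ S \ {u} ↔ w ∈ S \ {u, v} := by simp [hwu, hwv]
      have e2 : w ∈ S \ {v} ↔ w ∈ S \ {u, v} := by simp [hwu, hwv]
      apply hFG
      · rw [Ret_of_congr hα e1, Ret_of_congr hα e2]
      · rw [Ret_of_congr hα e1]
        exact Ret_mem hα (Set.Subset.refl _) _
    have hFGr : ∀ q : Q, F (SemidirectProduct.inr q) = G (SemidirectProduct.inr q) := by
      intro q
      apply hFG
      · rw [Ret_inr, Ret_inr]
      · rw [Ret_inr]
        exact inr_mem hα _ q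
    have comm : ∀ (T : GrP Λ A ⋊[α] Q →* H) (w w' : V), Λ.Adj w w' → ∀ (a : A w) (b : A w'),
        T (SemidirectProduct.inl (GrP.of Λ A w a)) * T (SemidirectProduct.inl (GrP.of Λ A w' b)) =
          T (SemidirectProduct.inl (GrP.of Λ A w' b)) *
            T (SemidirectProduct.inl (GrP.of Λ A w a)) := by
      intro T w w' hw a b
      rw [← map_mul, ← map_mul, of_comm Λ A hw, map_mul, map_mul]
    let h0 : GrP Λ A →* H := glift (Λ := Λ) (A := A)
      (fun w => if w = u then (G.comp SemidirectProduct.inl).comp (GrP.of Λ A w) else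
        (F.comp SemidirectProduct.inl).comp (GrP.of Λ A w)) (by
      intro w w' hw a b
      by_cases hwu : w = u
      · subst hwu
        have h1 : w' ≠ w := fun h => Λ.ne_of_adj hw h.symm
        have h2 : w' ≠ v := by
          rintro rfl
          exact hadj hw
        rw [if_pos rfl, if_neg h1]
        show G _ * F _ = F _ * G _
        have h3 := hFGof w' b h1 h2
        have h4 := comm G w w' hw a b
        rw [h3]
        exact h4
      · by_cases hwu' : w' = u
        · subst hwu'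
          have h2 : w ≠ v := by
            rintro rfl
            exact hadj hw.symm
          rw [if_neg hwu, if_pos rfl]
          show F _ * G _ = G _ * F _
          have h3 := hFGof w a hwu h2
          have h4 := comm G w w' hw a b
          rw [h3]
          exact h4
        · rw [if_neg hwu, if_neg hwu']
          exact comm F w w' hw a b)
    have h0u : ∀ a : A u, h0 (GrP.of Λ A u a) = G (SemidirectProduct.inl (GrP.of Λ A u a)) := by
      intro a
      show glift _ _ _ = _
      rw [glift_of, if_pos rfl]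
      rfl
    have h0n : ∀ (w : V) (a : A w), w ≠ u →
        h0 (GrP.of Λ A w a) = F (SemidirectProduct.inl (GrP.of Λ A w a)) := by
      intro w a hw
      show glift _ _ _ = _
      rw [glift_of, if_neg hw]
      rfl
    have hcompat : ∀ q : Q, h0.comp (α q).toMonoidHom =
        (MulAut.conj ((F.comp SemidirectProduct.inr) q)).toMonoidHom.comp h0 := by
      intro q
      apply ghom_ext
      intro w a
      show h0 (α q (GrP.of Λ A w a)) = F (SemidirectProduct.inr q) * h0 (GrP.of Λ A w a) *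
        (F (SemidirectProduct.inr q))⁻¹
      by_cases hw : w = u
      · subst hw
        have h1 := hα q w a
        rw [h1, h0u, h0u, ← h1, SemidirectProduct.inl_aut, map_mul, map_mul, hFGr q, ← map_inv G,
          map_inv]
      · have h1 := hα q w a
        rw [h1, h0n _ _ hw, h0n _ _ hw, ← h1, SemidirectProduct.inl_aut, map_mul, map_mul,
          ← map_inv F, map_inv]
    let hL : GrP Λ A ⋊[α] Q →* H := SemidirectProduct.lift h0 (F.comp SemidirectProduct.inr) hcompat
    have hLinl : ∀ n : GrP Λ A, hL (SemidirectProduct.inl n) = h0 n :=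
      fun n => SemidirectProduct.lift_inl _ _ _ n
    have hLinr : ∀ q : Q, hL (SemidirectProduct.inr q) = F (SemidirectProduct.inr q) :=
      fun q => SemidirectProduct.lift_inr _ _ _ q
    have agF : hL.comp (Ret hα (S \ {u})) = F.comp (Ret hα (S \ {u})) := by
      apply SemidirectProduct.hom_ext
      · apply ghom_ext
        intro w a
        show hL (Ret hα (S \ {u}) (SemidirectProduct.inl (GrP.of Λ A w a))) =
          F (Ret hα (S \ {u}) (SemidirectProduct.inl (GrP.of Λ A w a)))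
        rw [Ret_inl]
        by_cases hw : w ∈ S \ {u}
        · rw [ret_of_mem Λ A hw, hLinl, h0n _ _ hw.2]
        · rw [ret_of_not Λ A hw, map_one, map_one, map_one]
      · ext q
        show hL (Ret hα (S \ {u}) (SemidirectProduct.inr q)) =
          F (Ret hα (S \ {u}) (SemidirectProduct.inr q))
        rw [Ret_inr, hLinr]
    have agG : hL.comp (Ret hα (S \ {v})) = G.comp (Ret hα (S \ {v})) := by
      apply SemidirectProduct.hom_ext
      · apply ghom_ext
        intro w a
        show hL (Ret hα (S \ {v}) (SemidirectProduct.inl (GrP.of Λ A w a))) =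
          G (Ret hα (S \ {v}) (SemidirectProduct.inl (GrP.of Λ A w a)))
        rw [Ret_inl]
        by_cases hw : w ∈ S \ {v}
        · rw [ret_of_mem Λ A hw, hLinl]
          by_cases hwu : w = u
          · subst hwu
            exact h0u a
          · rw [h0n _ _ hwu]
            exact hFGof w a hwu hw.2
        · rw [ret_of_not Λ A hw, map_one, map_one, map_one]
      · ext q
        show hL (Ret hα (S \ {v}) (SemidirectProduct.inr q)) =
          G (Ret hα (S \ {v}) (SemidirectProduct.inr q))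
        rw [Ret_inr, hLinr]
        exact hFGr q
    refine ⟨hL.comp (W hα S).subtype, ?_, ?_⟩
    · intro a
      have ha : ((a : W hα S) : GrP Λ A ⋊[α] Q) ∈ W hα (S \ {u}) := Subgroup.mem_subgroupOf.1 a.2
      have h1 := DFunLike.congr_fun agF ((a : W hα S) : GrP Λ A ⋊[α] Q)
      rw [MonoidHom.comp_apply, MonoidHom.comp_apply, Ret_fix hα ha] at h1
      show hL ((a : W hα S) : GrP Λ A ⋊[α] Q) = f a
      rw [h1, hF]
      show f (ρu _) = f a
      congr 1
      exact Subtype.ext (Subtype.ext (Ret_fix hα ha))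
    · intro a
      have ha : ((a : W hα S) : GrP Λ A ⋊[α] Q) ∈ W hα (S \ {v}) := Subgroup.mem_subgroupOf.1 a.2
      have h1 := DFunLike.congr_fun agG ((a : W hα S) : GrP Λ A ⋊[α] Q)
      rw [MonoidHom.comp_apply, MonoidHom.comp_apply, Ret_fix hα ha] at h1
      show hL ((a : W hα S) : GrP Λ A ⋊[α] Q) = g a
      rw [h1, hG]
      show g (ρv _) = g a
      congr 1
      exact Subtype.ext (Subtype.ext (Ret_fix hα ha))

/-- cliques -/
theorem clique_mem {C : ∀ (G : Type) [Group G], Prop} (hC : ClosedE C) (hα : Pres α θ)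
    (hQ : C Q) (hA : ∀ v, C (A v ⋊[θ v] Q)) (S : Finset V) (hS : Λ.IsClique (S : Set V)) :
    C ↥(W hα (S : Set V)) := by
  let Ψ : ∀ v : V, GrP Λ A ⋊[α] Q →* A v ⋊[θ v] Q := fun v =>
    SemidirectProduct.map (pr Λ A v) (MonoidHom.id Q) (fun q => pr_act hα v q)
  let f : ↥(W hα (S : Set V)) →* Q × (∀ v : S, A (v : V) ⋊[θ (v : V)] Q) :=
    ((SemidirectProduct.rightHom : GrP Λ A ⋊[α] Q →* Q).prod
      (MonoidHom.pi fun v : S => Ψ (v : V))).comp (W hα (S : Set V)).subtype
  refine hC.base.of_injective _ _ f ?_ (hC.base.prod _ _ hQ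
    (Pool.Agent.Y50.FJ.pi_mem C hC.base (fun v => A v ⋊[θ v] Q) hA S))
  intro x y hxy
  have h1 : (x : GrP Λ A ⋊[α] Q).right = (y : GrP Λ A ⋊[α] Q).right := congrArg Prod.fst hxy
  have h2 : ∀ v ∈ S, pr Λ A v (x : GrP Λ A ⋊[α] Q).left =
      pr Λ A v (y : GrP Λ A ⋊[α] Q).left := by
    intro v hv
    have h3 := congrFun (congrArg Prod.snd hxy) ⟨v, hv⟩
    exact congrArg SemidirectProduct.left h3
  have hx := congrArg SemidirectProduct.left (Ret_fix hα x.2)
  have hy := congrArg SemidirectProduct.left (Ret_fix hα y.2)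
  exact Subtype.ext (SemidirectProduct.ext (clique_inj Λ A S hS hx hy h2) h1)

/-- the finite stages -/
theorem fin_mem (h : S_AM) {C : ∀ (G : Type) [Group G], Prop} (hC : ClosedE C) (hα : Pres α θ)
    (hQ : C Q) (hA : ∀ v, C (A v ⋊[θ v] Q)) :
    ∀ (n : ℕ) (S : Finset V), S.card = n → C ↥(W hα (S : Set V)) := by
  classical
  intro n
  induction n using Nat.strong_induction_on with
  | _ n ih =>
    intro S hS
    by_cases hcS : Λ.IsClique (S : Set V)
    · exact clique_mem hC hα hQ hA S hcS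
    · have hex : ∃ u ∈ S, ∃ v ∈ S, u ≠ v ∧ ¬ Λ.Adj u v := by
        by_contra hcon
        push Not at hcon
        exact hcS fun u hu v hv huv => hcon u hu v hv huv
      obtain ⟨u, hu, v, hv, huv, hl⟩ := hex
      have hAm := amg hα (S : Set V) huv hl
      have hCu : C ↥(W hα ((S.erase u : Finset V) : Set V)) :=
        ih _ (by rw [← hS]; exact Finset.card_erase_lt_of_mem hu) _ rfl
      have hCv : C ↥(W hα ((S.erase v : Finset V) : Set V)) :=
        ih _ (by rw [← hS]; exact Finset.card_erase_lt_of_mem hv) _ rfl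
      let f : ↥(W hα (S : Set V)) →*
          ↥(W hα ((S.erase u : Finset V) : Set V)) × ↥(W hα ((S.erase v : Finset V) : Set V)) :=
        ((Ret hα ((S.erase u : Finset V) : Set V)).rangeRestrict.prod
          (Ret hα ((S.erase v : Finset V) : Set V)).rangeRestrict).comp
            (W hα (S : Set V)).subtype
      refine h C hC _ _ _ _ _ hAm f ?_ ?_ (hC.base.prod _ _ hCu hCv)
      · intro a ha hfa
        have h1 : Ret hα ((S.erase u : Finset V) : Set V) (a : GrP Λ A ⋊[α] Q) = 1 :=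
          congrArg Subtype.val (congrArg Prod.fst hfa)
        rw [Subgroup.mem_subgroupOf, ← Finset.coe_erase] at ha
        rw [Ret_fix hα ha] at h1
        exact Subtype.ext h1
      · intro a ha hfa
        have h1 : Ret hα ((S.erase v : Finset V) : Set V) (a : GrP Λ A ⋊[α] Q) = 1 :=
          congrArg Subtype.val (congrArg Prod.snd hfa)
        rw [Subgroup.mem_subgroupOf, ← Finset.coe_erase] at ha
        rw [Ret_fix hα ha] at h1
        exact Subtype.ext h1

end semi

/-- **FJ-RGP** -/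
theorem t_rgp (h : S_AM) : S_RGP := by
  classical
  intro C hC V Q Λ A _ _ α θ hα hQ hA
  have hP : Pres α θ := hα
  refine hC.base.colim (Finset V)
    (fun i j => ⟨i ∪ j, Finset.subset_union_left, Finset.subset_union_right⟩)
    (fun S => ↥(W hP (S : Set V)))
    (fun i j hij => Subgroup.inclusion (W_mono hP (Finset.coe_subset.mpr hij)))
    (GrP Λ A ⋊[α] Q) (fun S => (W hP (S : Set V)).subtype) ?_ ?_ ?_ ?_ ?_ ?_
  · intro i hi x; rfl
  · intro i j k hij hjk x; rfl
  · intro i j hij x; rfl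
  · intro y
    obtain ⟨S, hS, hyS⟩ := exists_gc y.left
    refine ⟨hS.toFinset, ⟨y, ⟨y, ?_⟩⟩, rfl⟩
    rw [hS.coe_toFinset]
    exact SemidirectProduct.ext (ret_gc Λ A hyS) rfl
  · intro i x hx
    refine ⟨i, le_rfl, ?_⟩
    apply Subtype.ext
    exact hx
  · intro S
    exact fin_mem h hC hP hQ hA _ S rfl

end Pool.Agent.Y978.FJ
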